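import Pool.Agent.H840.KP.Stm2
set_option autoImplicit false

/-!
# S_LIN2 (proof by helper103, after the proof of S_LIN by helper722)
-/

open Complex Matrix

open scoped ComplexConjugate

namespace Pool.Agent.H103.KP

open Pool.Agent.H840.KP

abbrev I4 := Fin 2 × Fin 2

abbrev MM := Matrix (I4 × I4) (I4 × I4) ℂ

/-- polarisation of `rk` -/
noncomputable def hh (x y : I4 × I4 → ℂ) : MM :=
  Matrix.of fun I J => x I * conj (y J) + y I * conj (x J)

noncomputable def EE (i j : I4) : I4 × I4 → ℂ := wd (Pi.single i 1) (Pi.single j 1)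

noncomputable def FF (ζ : ℂ) (i j k l : I4) : MM := hh (ζ • EE i j) (EE k l)

theorem EE_swap (i j : I4) : EE j i = - EE i j := by
  funext I
  simp only [EE, wd, Pi.neg_apply]; ring

theorem EE_self (i : I4) : EE i i = 0 := by
  funext I
  simp only [EE, wd, Pi.zero_apply]; ring

theorem EE_real (i j : I4) (I : I4 × I4) : conj (EE i j I) = EE i j I := by
  simp only [EE, wd, map_sub, map_mul]
  have h : ∀ a b : I4, conj ((Pi.single a (1 : ℂ) : I4 → ℂ) b) =
      (Pi.single a (1 : ℂ) : I4 → ℂ) b := by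
    intro a b
    rw [Pi.single_apply]
    split <;> simp
  rw [h, h, h, h]

theorem FF_apply (ζ : ℂ) (i j k l : I4) (I J : I4 × I4) :
    FF ζ i j k l I J = ζ * EE i j I * EE k l J + conj ζ * EE k l I * EE i j J := by
  simp only [FF, hh, Matrix.of_apply, Pi.smul_apply, smul_eq_mul, map_mul, EE_real]
  ring

theorem FF_swap1 (ζ : ℂ) (i j k l : I4) : FF ζ j i k l = - FF ζ i j k l := by
  ext I J
  rw [Matrix.neg_apply, FF_apply, FF_apply, EE_swap i j]
  simp only [Pi.neg_apply]; ring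

theorem FF_swap2 (ζ : ℂ) (i j k l : I4) : FF ζ i j l k = - FF ζ i j k l := by
  ext I J
  rw [Matrix.neg_apply, FF_apply, FF_apply, EE_swap k l]
  simp only [Pi.neg_apply]; ring

theorem FF_conj (ζ : ℂ) (i j k l : I4) : FF ζ k l i j = FF (conj ζ) i j k l := by
  ext I J
  rw [FF_apply, FF_apply, Complex.conj_conj]
  ring

theorem FF_add (ζ ξ : ℂ) (i j k l : I4) : FF (ζ + ξ) i j k l = FF ζ i j k l + FF ξ i j k l := by
  ext I J
  rw [Matrix.add_apply, FF_apply, FF_apply, FF_apply, map_add]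
  ring

theorem FF_neg (ζ : ℂ) (i j k l : I4) : FF (-ζ) i j k l = - FF ζ i j k l := by
  ext I J
  rw [Matrix.neg_apply, FF_apply, FF_apply, map_neg]
  ring

theorem FF_smul (r : ℝ) (ζ : ℂ) (i j k l : I4) : FF (r * ζ) i j k l = r • FF ζ i j k l := by
  ext I J
  rw [Matrix.smul_apply, FF_apply, FF_apply, map_mul, Complex.conj_ofReal, Complex.real_smul]
  ring

theorem FF_zero (i j k l : I4) : FF 0 i j k l = 0 := by
  ext I J
  rw [FF_apply]
  simp

theorem sum_EE (x : I4 × I4 → ℂ) (hx : ∀ i j, x (i, j) = - x (j, i)) (I : I4 × I4) :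
    ∑ i, ∑ j, x (i, j) * EE i j I = 2 * x I := by
  obtain ⟨a, b⟩ := I
  have h1 : ∀ i j : I4, x (i, j) * EE i j (a, b) =
      (if i = a then (if j = b then x (i, j) else 0) else 0) -
      (if i = b then (if j = a then x (i, j) else 0) else 0) := by
    intro i j
    have e : ∀ p q : I4, (Pi.single p (1 : ℂ) : I4 → ℂ) q = if p = q then 1 else 0 := by
      intro p q
      rw [Pi.single_apply]
      exact if_congr eq_comm rfl rfl
    simp only [EE, wd, e]
    split_ifs <;> ring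
  simp only [h1, Finset.sum_sub_distrib, Finset.sum_ite_eq', Finset.mem_univ, if_true,
    Finset.sum_ite_irrel, Finset.sum_const_zero]
  rw [hx b a]; ring

/-- decomposition of the elements of `H22` -/
theorem decomp (Z : MM) (hZ : Z ∈ H22 I4) :
    Z = (1 / 8 : ℝ) • ∑ i, ∑ j, ∑ k, ∑ l, FF (Z (i, j) (k, l)) i j k l := by
  obtain ⟨hH, hA⟩ := hZ
  have hH' : ∀ I J, conj (Z J I) = Z I J := fun I J => hH.apply I J
  have hA' : ∀ I k l, Z I (k, l) = - Z I (l, k) := by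
    intro I k l
    rw [← hH' I (k, l), hA k l I, map_neg, hH']
  ext I J
  rw [Matrix.smul_apply, Matrix.sum_apply]
  simp only [Matrix.sum_apply, FF_apply]
  have h1 : ∑ i, ∑ j, ∑ k, ∑ l, (Z (i, j) (k, l) * EE i j I * EE k l J +
      conj (Z (i, j) (k, l)) * EE k l I * EE i j J) = 8 * Z I J := by
    have e1 : ∀ I' : I4 × I4, ∑ k, ∑ l, Z I' (k, l) * EE k l J = 2 * Z I' J := fun I' =>
      sum_EE (fun K => Z I' K) (fun i j => hA' I' i j) J
    have e2 : ∑ i, ∑ j, (Z (i, j) J) * EE i j I = 2 * Z I J :=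
      sum_EE (fun K => Z K J) (fun i j => hA i j J) I
    have e3 : ∀ I' : I4 × I4, ∑ k, ∑ l, conj (Z I' (k, l)) * EE k l I = 2 * Z I I' := by
      intro I'
      have := sum_EE (fun K => Z K I') (fun i j => hA i j I') I
      simp only [hH']
      exact this
    have e4 : ∑ i, ∑ j, (Z I (i, j)) * EE i j J = 2 * Z I J :=
      sum_EE (fun K => Z I K) (fun i j => hA' I i j) J
    calc ∑ i, ∑ j, ∑ k, ∑ l, (Z (i, j) (k, l) * EE i j I * EE k l J +
          conj (Z (i, j) (k, l)) * EE k l I * EE i j J)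
        = ∑ i, ∑ j, ((∑ k, ∑ l, Z (i, j) (k, l) * EE k l J) * EE i j I +
          (∑ k, ∑ l, conj (Z (i, j) (k, l)) * EE k l I) * EE i j J) := by
          refine Finset.sum_congr rfl fun i _ => Finset.sum_congr rfl fun j _ => ?_
          rw [Finset.sum_mul, Finset.sum_mul, ← Finset.sum_add_distrib]
          refine Finset.sum_congr rfl fun k _ => ?_
          rw [Finset.sum_mul, Finset.sum_mul, ← Finset.sum_add_distrib]
          refine Finset.sum_congr rfl fun l _ => ?_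
          ring
      _ = 4 * Z I J + 4 * Z I J := by
          simp only [e1, e3, Finset.sum_add_distrib]
          congr 1
          · have : ∀ i j : I4, 2 * Z (i, j) J * EE i j I = 2 * (Z (i, j) J * EE i j I) :=
              fun i j => by ring
            simp only [this, ← Finset.mul_sum, e2]
            ring
          · have : ∀ i j : I4, 2 * Z I (i, j) * EE i j J = 2 * (Z I (i, j) * EE i j J) :=
              fun i j => by ring
            simp only [this, ← Finset.mul_sum, e4]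
            ring
      _ = _ := by ring
  rw [h1, Complex.real_smul]
  push_cast
  ring

theorem cases4 : ∀ i j k l : I4, i ≠ j → i ≠ k → i ≠ l → j ≠ k → j ≠ l → k ≠ l →
    ((i = (0,0) ∧ j = (1,0) ∨ i = (1,0) ∧ j = (0,0)) ∧
      (k = (0,1) ∧ l = (1,1) ∨ k = (1,1) ∧ l = (0,1))) ∨
    ((i = (0,1) ∧ j = (1,1) ∨ i = (1,1) ∧ j = (0,1)) ∧
      (k = (0,0) ∧ l = (1,0) ∨ k = (1,0) ∧ l = (0,0))) ∨
    ((i = (0,0) ∧ j = (0,1) ∨ i = (0,1) ∧ j = (0,0)) ∧
      (k = (1,0) ∧ l = (1,1) ∨ k = (1,1) ∧ l = (1,0))) ∨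
    ((i = (1,0) ∧ j = (1,1) ∨ i = (1,1) ∧ j = (1,0)) ∧
      (k = (0,0) ∧ l = (0,1) ∨ k = (0,1) ∧ l = (0,0))) ∨
    ((i = (0,0) ∧ j = (1,1) ∨ i = (1,1) ∧ j = (0,0)) ∧
      (k = (1,0) ∧ l = (0,1) ∨ k = (0,1) ∧ l = (1,0))) ∨
    ((i = (1,0) ∧ j = (0,1) ∨ i = (0,1) ∧ j = (1,0)) ∧
      (k = (0,0) ∧ l = (1,1) ∨ k = (1,1) ∧ l = (0,0))) := by
  rintro ⟨i1, i2⟩ ⟨j1, j2⟩ ⟨k1, k2⟩ ⟨l1, l2⟩
  fin_cases i1 <;> fin_cases i2 <;> fin_cases j1 <;> fin_cases j2 <;> fin_cases k1 <;>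
    fin_cases k2 <;> fin_cases l1 <;> fin_cases l2 <;> simp

theorem s_LIN2 : Pool.Agent.H840.KP.S_LIN2 := by
  intro W hW1
  -- the basic elements
  have hG : ∀ (a c : I4) (ζ : ℂ) (s : Fin 2) (w : Fin 2 → ℤ),
      hh (ζ • wd (Pi.single a 1) (fun p => if p.2 = s then (w p.1 : ℂ) else 0))
        (wd (Pi.single c 1) (fun p => if p.2 = s then (w p.1 : ℂ) else 0)) ∈ W := by
    intro a c ζ s w
    have h := W.sub_mem (W.sub_mem (hW1 a c ζ 1 s w) (hW1 a c ζ 0 s w)) (hW1 a c 0 1 s w)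
    have h2 : ∀ p : I4, conj (if p.2 = s then (w p.1 : ℂ) else 0) =
        if p.2 = s then (w p.1 : ℂ) else 0 := by
      intro p
      split <;> simp
    have h0 : ∀ p, (Pi.single a ζ : I4 → ℂ) p = ζ * (Pi.single a 1 : I4 → ℂ) p := by
      intro p
      rw [Pi.single_apply, Pi.single_apply]
      split <;> simp
    have e : rk (wd (Pi.single a ζ + Pi.single c 1)
          (fun p => if p.2 = s then (w p.1 : ℂ) else 0)) -
        rk (wd (Pi.single a ζ + Pi.single c 0) (fun p => if p.2 = s then (w p.1 : ℂ) else 0)) -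
        rk (wd (Pi.single a 0 + Pi.single c 1) (fun p => if p.2 = s then (w p.1 : ℂ) else 0)) =
        hh (ζ • wd (Pi.single a 1) (fun p => if p.2 = s then (w p.1 : ℂ) else 0))
          (wd (Pi.single c 1) (fun p => if p.2 = s then (w p.1 : ℂ) else 0)) := by
      ext I J
      simp only [rk, hh, wd, Matrix.sub_apply, Matrix.of_apply, Pi.add_apply, Pi.single_zero,
        Pi.zero_apply, h0, Pi.smul_apply, smul_eq_mul, map_sub, map_mul, map_add, map_zero, h2]
      ring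
    rwa [e] at h
  have hF1 : ∀ (ζ : ℂ) (a b c d : I4), b.2 = d.2 → FF ζ a b c d + FF ζ a d c b ∈ W := by
    intro ζ a b c d hbd
    have h := W.sub_mem (W.sub_mem (hG a c ζ b.2 (Pi.single b.1 1 + Pi.single d.1 1))
      (hG a c ζ b.2 (Pi.single b.1 1))) (hG a c ζ b.2 (Pi.single d.1 1))
    have h0 : ∀ p q : I4, p.2 = b.2 →
        (if q.2 = b.2 then (((Pi.single p.1 1 : Fin 2 → ℤ) q.1 : ℤ) : ℂ) else 0) =
        (Pi.single p 1 : I4 → ℂ) q := by
      intro p q hp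
      rw [Pi.single_apply, Pi.single_apply]
      by_cases h1 : q.1 = p.1 <;> by_cases h2 : q.2 = b.2 <;> simp [h1, h2, Prod.ext_iff, hp]
    have h3 : ∀ q : I4, (if q.2 = b.2 then
        (((Pi.single b.1 1 + Pi.single d.1 1 : Fin 2 → ℤ) q.1 : ℤ) : ℂ) else 0) =
        (Pi.single b 1 : I4 → ℂ) q + (Pi.single d 1 : I4 → ℂ) q := by
      intro q
      rw [← h0 b q rfl, ← h0 d q hbd.symm]
      split <;> simp
    simp only [h3, h0 b _ rfl, h0 d _ hbd.symm] at h
    have h4 : ∀ a b : I4, conj ((Pi.single a (1 : ℂ) : I4 → ℂ) b) =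
        (Pi.single a (1 : ℂ) : I4 → ℂ) b := by
      intro a b
      rw [Pi.single_apply]
      split <;> simp
    have e : hh (ζ • wd (Pi.single a 1) (fun q => (Pi.single b 1 : I4 → ℂ) q +
          (Pi.single d 1 : I4 → ℂ) q)) (wd (Pi.single c 1) (fun q => (Pi.single b 1 : I4 → ℂ) q +
          (Pi.single d 1 : I4 → ℂ) q)) -
        hh (ζ • wd (Pi.single a 1) (fun q => (Pi.single b 1 : I4 → ℂ) q))
          (wd (Pi.single c 1) (fun q => (Pi.single b 1 : I4 → ℂ) q)) -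
        hh (ζ • wd (Pi.single a 1) (fun q => (Pi.single d 1 : I4 → ℂ) q))
          (wd (Pi.single c 1) (fun q => (Pi.single d 1 : I4 → ℂ) q)) =
        FF ζ a b c d + FF ζ a d c b := by
      ext I J
      simp only [FF, EE, hh, wd, Matrix.sub_apply, Matrix.add_apply, Matrix.of_apply,
        Pi.smul_apply, smul_eq_mul, map_sub, map_mul, map_add, h4]
      ring
    rwa [e] at h
  have hS : ∀ (ζ : ℂ) (a b c : I4), FF ζ a b c b ∈ W := by
    intro ζ a b c
    have h := hF1 (((1 / 2 : ℝ) : ℂ) * ζ) a b c b rfl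
    rw [← FF_add] at h
    have e : ((1 / 2 : ℝ) : ℂ) * ζ + ((1 / 2 : ℝ) : ℂ) * ζ = ζ := by
      push_cast
      ring
    rwa [e] at h
  have hS1 : ∀ (ζ : ℂ) (a b c : I4), FF ζ b a c b ∈ W := by
    intro ζ a b c
    rw [FF_swap1]
    exact W.neg_mem (hS ζ a b c)
  have hS2 : ∀ (ζ : ℂ) (a b c : I4), FF ζ a b b c ∈ W := by
    intro ζ a b c
    rw [FF_swap2]
    exact W.neg_mem (hS ζ a b c)
  have hS3 : ∀ (ζ : ℂ) (a b c : I4), FF ζ b a b c ∈ W := by
    intro ζ a b c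
    rw [FF_swap1]
    exact W.neg_mem (hS2 ζ a b c)
  -- the two mixed relations
  have hR1 : ∀ ζ : ℂ, FF ζ (0,0) (0,1) (1,0) (1,1) + FF (conj ζ) (0,0) (1,1) (1,0) (0,1) ∈ W := by
    intro ζ
    have h := hF1 ζ (0,1) (0,0) (1,1) (1,0) rfl
    rw [FF_swap1 ζ (0,0) (0,1), FF_swap2 ζ (0,0) (0,1) (1,0) (1,1), neg_neg,
      FF_swap1 ζ (1,0) (0,1), FF_swap2 ζ (1,0) (0,1) (0,0) (1,1), neg_neg,
      FF_conj ζ (0,0) (1,1) (1,0) (0,1)] at h
    exact h
  have hR2 : ∀ ζ : ℂ, FF ζ (0,0) (0,1) (1,0) (1,1) + FF ζ (0,0) (1,1) (1,0) (0,1) ∈ W := by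
    intro ζ
    exact hF1 ζ (0,0) (0,1) (1,0) (1,1) rfl
  have hI1 : ∀ ζ : ℂ, ζ.re = 0 → FF ζ (0,0) (1,1) (1,0) (0,1) ∈ W := by
    intro ζ hζ
    have h := W.sub_mem (hR2 (((1 / 2 : ℝ) : ℂ) * ζ)) (hR1 (((1 / 2 : ℝ) : ℂ) * ζ))
    rw [add_sub_add_left_eq_sub, sub_eq_add_neg, ← FF_neg, ← FF_add] at h
    have e : ((1 / 2 : ℝ) : ℂ) * ζ + -conj (((1 / 2 : ℝ) : ℂ) * ζ) = ζ := by
      apply Complex.ext
      · simp [hζ]
      · simp
        ring
    rwa [e] at h
  have hI2 : ∀ ζ : ℂ, ζ.re = 0 → FF ζ (0,0) (0,1) (1,0) (1,1) ∈ W := by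
    intro ζ hζ
    have h := W.sub_mem (hR2 ζ) (hI1 ζ hζ)
    rwa [add_sub_cancel_right] at h
  intro Z hZ hcp
  rw [decomp Z hZ]
  obtain ⟨hH, hA⟩ := hZ
  have hH' : ∀ I J, conj (Z J I) = Z I J := fun I J => hH.apply I J
  have hA' : ∀ I k l, Z I (k, l) = - Z I (l, k) := by
    intro I k l
    rw [← hH' I (k, l), hA k l I, map_neg, hH']
  -- the components
  have hc1 : ∀ i j k l : Fin 2, Z ((0, i), (1, k)) ((0, j), (1, l)) +
      Z ((0, k), (1, i)) ((0, l), (1, j)) = 0 := by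
    intro i j k l
    have h := congrArg (fun t : Ten => t.1 i j k l) hcp
    exact h
  have hc2 : (Z ((0, 0), (0, 1)) ((1, 0), (1, 1))).re = 0 := by
    have h := congrArg (fun t : Ten => t.2) hcp
    exact h
  have z12 : Z ((0,0), (1,0)) ((0,1), (1,1)) = 0 := by
    have h := hc1 0 1 0 1
    rw [← two_mul] at h
    exact (mul_eq_zero.1 h).resolve_left two_ne_zero
  have z14 : (Z ((0,0), (1,1)) ((1,0), (0,1))).re = 0 := by
    have h := hc1 0 1 1 0
    rw [← hH' ((0,1), (1,0)) ((0,0), (1,1)), Complex.add_conj] at h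
    have h' : (2 : ℝ) * (Z ((0,0), (1,1)) ((0,1), (1,0))).re = 0 := by exact_mod_cast h
    rw [hA' ((0,0), (1,1)) (1,0) (0,1), Complex.neg_re]
    linarith
  -- the terms
  let T : I4 → I4 → I4 → I4 → MM := fun i j k l => FF (Z (i, j) (k, l)) i j k l
  have T1 : ∀ i j k l, T j i k l = T i j k l := by
    intro i j k l
    show FF (Z (j, i) (k, l)) j i k l = FF (Z (i, j) (k, l)) i j k l
    rw [hA j i, FF_swap1, FF_neg, neg_neg]
  have T2 : ∀ i j k l, T i j l k = T i j k l := by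
    intro i j k l
    show FF (Z (i, j) (l, k)) i j l k = FF (Z (i, j) (k, l)) i j k l
    rw [hA' (i, j) l k, FF_swap2, FF_neg, neg_neg]
  have T3 : ∀ i j k l, T k l i j = T i j k l := by
    intro i j k l
    show FF (Z (k, l) (i, j)) k l i j = FF (Z (i, j) (k, l)) i j k l
    rw [FF_conj, hH']
  have t1 : T (0,0) (1,0) (0,1) (1,1) ∈ W := by
    show FF (Z ((0,0), (1,0)) ((0,1), (1,1))) _ _ _ _ ∈ W
    rw [z12, FF_zero]
    exact W.zero_mem
  have t2 : T (0,0) (0,1) (1,0) (1,1) ∈ W := hI2 _ hc2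
  have t3 : T (0,0) (1,1) (1,0) (0,1) ∈ W := hI1 _ z14
  have hT : ∀ i j k l, T i j k l ∈ W := by
    intro i j k l
    by_cases hij : i = j
    · subst hij
      show FF (Z (i, i) (k, l)) i i k l ∈ W
      have : Z (i, i) (k, l) = 0 := by
        have h := hA i i (k, l)
        exact self_eq_neg.1 h
      rw [this, FF_zero]
      exact W.zero_mem
    by_cases hkl : k = l
    · subst hkl
      show FF (Z (i, j) (k, k)) i j k k ∈ W
      have : Z (i, j) (k, k) = 0 := by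
        have h := hA' (i, j) k k
        exact self_eq_neg.1 h
      rw [this, FF_zero]
      exact W.zero_mem
    by_cases hik : i = k
    · subst hik
      exact hS3 _ j i l
    by_cases hil : i = l
    · subst hil
      exact hS1 _ j i k
    by_cases hjk : j = k
    · subst hjk
      exact hS2 _ i j l
    by_cases hjl : j = l
    · subst hjl
      exact hS _ i j k
    rcases cases4 i j k l hij hik hil hjk hjl hkl with h | h | h | h | h | h
    · rcases h with ⟨⟨rfl, rfl⟩ | ⟨rfl, rfl⟩, ⟨rfl, rfl⟩ | ⟨rfl, rfl⟩⟩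
      · exact t1
      · rw [T2]; exact t1
      · rw [T1]; exact t1
      · rw [T1, T2]; exact t1
    · rw [T3]
      rcases h with ⟨⟨rfl, rfl⟩ | ⟨rfl, rfl⟩, ⟨rfl, rfl⟩ | ⟨rfl, rfl⟩⟩
      · exact t1
      · rw [T1]; exact t1
      · rw [T2]; exact t1
      · rw [T1, T2]; exact t1
    · rcases h with ⟨⟨rfl, rfl⟩ | ⟨rfl, rfl⟩, ⟨rfl, rfl⟩ | ⟨rfl, rfl⟩⟩
      · exact t2
      · rw [T2]; exact t2
      · rw [T1]; exact t2
      · rw [T1, T2]; exact t2
    · rw [T3]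
      rcases h with ⟨⟨rfl, rfl⟩ | ⟨rfl, rfl⟩, ⟨rfl, rfl⟩ | ⟨rfl, rfl⟩⟩
      · exact t2
      · rw [T1]; exact t2
      · rw [T2]; exact t2
      · rw [T1, T2]; exact t2
    · rcases h with ⟨⟨rfl, rfl⟩ | ⟨rfl, rfl⟩, ⟨rfl, rfl⟩ | ⟨rfl, rfl⟩⟩
      · exact t3
      · rw [T2]; exact t3
      · rw [T1]; exact t3
      · rw [T1, T2]; exact t3
    · rw [T3]
      rcases h with ⟨⟨rfl, rfl⟩ | ⟨rfl, rfl⟩, ⟨rfl, rfl⟩ | ⟨rfl, rfl⟩⟩
      · exact t3
      · rw [T1]; exact t3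
      · rw [T2]; exact t3
      · rw [T1, T2]; exact t3
  refine W.smul_mem _ (W.sum_mem fun i _ => W.sum_mem fun j _ => W.sum_mem fun k _ =>
    W.sum_mem fun l _ => hT i j k l)

end Pool.Agent.H103.KP
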